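import Pool.Agent.R54.HP.Final

/-! There is a graph property whose Harary polynomial is almost complete for `G(n,1/2)`. -/

namespace Pool.Agent.Results.MP_916a8b_co.AlmostComplete

open Filter Topology Pool.Agent.R54.HP

/-- There is a graph property `P` such that the proportion of the labelled graphs with `n` vertices
which are unique for the Harary polynomial of `P` tends to `1`. -/
theorem result : ∃ P : GraphProperty, Tendsto (fun n : ℕ =>
    (Nat.card {G : SimpleGraph (Fin n) // IsUnique P G} : ℝ) / 2 ^ (n.choose 2)) atTop (𝓝 1) :=
  main

end Pool.Agent.Results.MP_916a8b_co.AlmostComplete
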